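import Mathlib

/-!
# A smooth function with an isolated umbilic of index 3/2: definitions

Stage functions in the variable `s = |z|^2`.
-/

set_option autoImplicit false
open scoped ContDiff

namespace Pool.Agent.W2helper49.LW

noncomputable section

/-- the operator `f ↦ (f_xx - f_yy) + 2 i f_xy` of the frozen statement -/
def Q (f : ℂ → ℝ) (z : ℂ) : ℂ :=
  ((iteratedFDeriv ℝ 2 f z ![(1 : ℂ), 1] - iteratedFDeriv ℝ 2 f z ![Complex.I, Complex.I] : ℝ) : ℂ)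
    + 2 * ((iteratedFDeriv ℝ 2 f z ![(1 : ℂ), Complex.I] : ℝ) : ℂ) * Complex.I

/-- smooth step: 0 for `x ≤ 0`, 1 for `1 ≤ x` -/
def S (x : ℝ) : ℝ := Real.smoothTransition x

/-- its derivative -/
def dS (x : ℝ) : ℝ := deriv S x

end

/-- PIECE LW1: facts on the smooth step -/
def LW1 : Prop :=
  ContDiff ℝ ∞ S ∧ ContDiff ℝ ∞ dS ∧ (∀ x, HasDerivAt S (dS x) x) ∧
  (∀ x, x ≤ 0 → S x = 0) ∧ (∀ x, 1 ≤ x → S x = 1) ∧ (∀ x, 0 ≤ S x) ∧ (∀ x, S x ≤ 1) ∧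
  (∀ x, x ≤ 0 → dS x = 0) ∧ (∀ x, 1 ≤ x → dS x = 0) ∧ (∀ x, 0 ≤ dS x) ∧
  (∀ x, 0 < x → x < 1 → 0 < dS x) ∧
  (∃ σ : ℝ, 1 ≤ σ ∧ ∀ x, dS x ≤ σ) ∧
  (∀ δ : ℝ, 0 < δ → ∃ η : ℝ, 0 < η ∧ ∀ x, 1 / 2 ≤ S x → S x ≤ 1 - δ → η ≤ dS x)

/-- PIECE LW2: `Q` of a rotation-equivariant building block. Here `k = 2 j + 1`,
`f z = h(|z|^2) Re(z^k) / |z|^(2 j)` outside of the origin. -/
def LW2 : Prop :=
  ∀ (j : ℕ) (h h1 h2 : ℝ → ℝ),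
    (∀ s, 0 < s → HasDerivAt h (h1 s) s) → (∀ s, 0 < s → HasDerivAt h1 (h2 s) s) →
    ContDiffOn ℝ 2 h (Set.Ioi 0) →
    ∀ f : ℂ → ℝ, (∀ z : ℂ, z ≠ 0 → f z = h (Complex.normSq z) * (z ^ (2 * j + 1)).re / (Complex.normSq z) ^ j) →
    ∀ (r : ℝ), 0 < r → ∀ θ : ℝ,
      Q f ((r : ℂ) * Complex.exp ((θ : ℂ) * Complex.I)) =
        Complex.exp ((2 * θ : ℂ) * Complex.I) / (r : ℂ) *
          ((((4 * (r^2) ^ 2 * h2 (r^2) + 4 * r^2 * h1 (r^2)) + ((2 * j + 1 : ℝ) ^ 2 - 1) * h (r^2)) *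
              Real.cos ((2 * j + 1 : ℝ) * θ) : ℝ)
            - ((2 * (2 * j + 1 : ℝ) * (2 * r^2 * h1 (r^2)) * Real.sin ((2 * j + 1 : ℝ) * θ) : ℝ) : ℂ) * Complex.I)

/-- PIECE LW3: `Q` under `z ↦ c z` -/
def LW3 : Prop :=
  ∀ (G : ℂ → ℝ), ContDiff ℝ 2 G → ∀ (c z : ℂ),
    Q (fun w => G (c * w)) z = (starRingEnd ℂ c) ^ 2 * Q G (c * z)

/-- PIECE LW4: sums with slowly increasing levels -/
def LW4 : Prop :=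
  ∀ (G : ℕ → ℂ → ℝ), (∀ L, ContDiff ℝ ∞ (G L)) → (∀ L, HasCompactSupport (G L)) →
  ∀ (q : ℕ → ℝ), (∀ L, 1 ≤ q L) → Filter.Tendsto q Filter.atTop Filter.atTop →
  ∃ l : ℕ → ℕ, (∀ n, l (n + 1) = l n ∨ l (n + 1) = l n + 1) ∧
    ∀ (a : ℕ → ℝ) (F : ℕ → ℂ → ℝ), (∀ n, a n = ∏ j ∈ Finset.range n, (q (l j))⁻¹) →
      (∀ n z, F n z = a n / 3 ^ n * G (l n) ((3 * Complex.I) ^ n * z)) →
      ContDiff ℝ ∞ (fun z => ∑' n, F n z) ∧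
      (∀ z, Summable fun n => iteratedFDeriv ℝ 2 (F n) z) ∧
      (∀ z, iteratedFDeriv ℝ 2 (fun z => ∑' n, F n z) z = ∑' n, iteratedFDeriv ℝ 2 (F n) z)

end Pool.Agent.W2helper49.LW
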